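import Pool.Agent.Work.MP_25ef30_pf.Facts

/-!
# The published theorems used for closed manifolds with vanishing rational homology (MP_25ef30_gt)

Free homotopy classes of maps, localizations, the arithmetic square, rationally acyclic spaces,
coorientable plane fields on closed manifolds.
-/

set_option autoImplicit false
set_option linter.unusedSectionVars false

open scoped Topology

namespace Pool.PF

/-! ### Rational homology -/

/-- the rational homology in degree `k` is zero -/
def HQZero (k : ℕ) (X : Type) [TopologicalSpace X] : Prop :=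
  CategoryTheory.Limits.IsZero
    (((AlgebraicTopology.singularHomologyFunctor (ModuleCat.{0} ℚ) k).obj
      (ModuleCat.of ℚ ℚ)).obj (TopCat.of X))

/-- the map `f` induces isomorphisms of singular homology with rational coefficients -/
def QIso {X Y : Type} [TopologicalSpace X] [TopologicalSpace Y] (f : C(X, Y)) : Prop :=
  ∀ k : ℕ, CategoryTheory.IsIso
    (((AlgebraicTopology.singularHomologyFunctor (ModuleCat.{0} ℚ) k).obj
      (ModuleCat.of ℚ ℚ)).map (TopCat.ofHom f))

/-- the map `f` is zero on rational homology in degree `k` -/
def HQMapZero (k : ℕ) {X Y : Type} [TopologicalSpace X] [TopologicalSpace Y] (f : C(X, Y)) :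
    Prop :=
  ((AlgebraicTopology.singularHomologyFunctor (ModuleCat.{0} ℚ) k).obj
    (ModuleCat.of ℚ ℚ)).map (TopCat.ofHom f) = 0

/-- The map `f` to `B SO(q)` is zero on rational homology in the degrees `4 i`, `0 < 2 i < q`, and,
for `q` even, `q`, i.e. the rational Pontryagin classes and the Euler class of the pull back of the
universal bundle are zero. -/
def RatTrivial {q : ℕ} {X : Type} [TopologicalSpace X] (f : C(X, Rl (BG (SO q)))) : Prop :=
  (∀ i : ℕ, 1 ≤ i → 2 * i < q → HQMapZero (4 * i) f) ∧ (Even q → HQMapZero q f)

/-- the space is rationally acyclic: it has the rational homology of a point -/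
def QAcyclic (X : Type) [TopologicalSpace X] : Prop :=
  QIso (ContinuousMap.const X PUnit.unit.{1})

/-! ### Localizations -/

/-- The space `T` is local for isomorphisms of homology with coefficients in `ℤ/p`: every such
isomorphism `f : A → B` gives a bijection of the homotopy classes of maps `B → T` and `A → T`. -/
structure FreeLocal (p : ℕ) (T : SS) : Prop where
  ext : ∀ (A B : SS) (f : C(Rl A, Rl B)), ModPIso p f → ∀ u : C(Rl A, Rl T),
    ∃ v : C(Rl B, Rl T), (v.comp f).Homotopic u
  uniq : ∀ (A B : SS) (f : C(Rl A, Rl B)), ModPIso p f → ∀ v w : C(Rl B, Rl T),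
    (v.comp f).Homotopic (w.comp f) → v.Homotopic w

/-- The space `T` is local for isomorphisms of rational homology. -/
structure FreeRational (T : SS) : Prop where
  ext : ∀ (A B : SS) (f : C(Rl A, Rl B)), QIso f → ∀ u : C(Rl A, Rl T),
    ∃ v : C(Rl B, Rl T), (v.comp f).Homotopic u
  uniq : ∀ (A B : SS) (f : C(Rl A, Rl B)), QIso f → ∀ v w : C(Rl B, Rl T),
    (v.comp f).Homotopic (w.comp f) → v.Homotopic w

/-- the map `η` is a localization of a simply connected space with respect to homology with
coefficients in `ℤ/p` -/
structure IsLoc (p : ℕ) {S T : SS} (η : C(Rl S, Rl T)) : Prop where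
  simplyConnected : SimplyConnectedSpace (Rl T)
  iso : ModPIso p η
  isLocal : FreeLocal p T

/-- the map `η` is a rationalization of a simply connected space -/
structure IsRat {S T : SS} (η : C(Rl S, Rl T)) : Prop where
  simplyConnected : SimplyConnectedSpace (Rl T)
  iso : QIso η
  isLocal : FreeRational T

/-- A. K. Bousfield, The localization of spaces with respect to homology, Topology 14 (1975):
simply connected spaces have simply connected localizations. -/
def BousfieldFree : Prop :=
  ∀ ℓ : ℕ, ℓ.Prime → ∀ S : SS, SimplyConnectedSpace (Rl S) →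
    ∃ (T : SS) (η : C(Rl S, Rl T)), IsLoc ℓ η

/-- D. Sullivan, Geometric topology: localization, periodicity and Galois symmetry (1970): simply
connected spaces have rationalizations. -/
def Rationalization : Prop :=
  ∀ S : SS, SimplyConnectedSpace (Rl S) → ∃ (T : SS) (η : C(Rl S, Rl T)), IsRat η

/-- A. K. Bousfield and D. Kan, Homotopy limits, completions and localizations, LNM 304 (1972),
VI.8.1 (arithmetic square; see also Sullivan 1970 and Dror, Dwyer, Kan 1977): for a simply connected
space `S` the homotopy fibre of the map from `S` to the product of its localizations at the primes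
is connected, simple and has rational homotopy groups; so for `W` rationally acyclic the homotopy
classes of maps `W → S` are the families of homotopy classes of maps from `W` to the
localizations. -/
def ArithmeticSquare : Prop :=
  ∀ S : SS, SimplyConnectedSpace (Rl S) → ∀ (T : ℕ → SS) (η : ∀ ℓ : ℕ, C(Rl S, Rl (T ℓ))),
    (∀ ℓ : ℕ, ℓ.Prime → IsLoc ℓ (η ℓ)) → ∀ W : SS, QAcyclic (Rl W) →
    (∀ u : (ℓ : ℕ) → C(Rl W, Rl (T ℓ)), ∃ v : C(Rl W, Rl S), ∀ ℓ : ℕ, ℓ.Prime →
      ((η ℓ).comp v).Homotopic (u ℓ)) ∧
    ∀ v w : C(Rl W, Rl S), (∀ ℓ : ℕ, ℓ.Prime → ((η ℓ).comp v).Homotopic ((η ℓ).comp w)) →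
      v.Homotopic w

/-- D. Sullivan (1970), P. Hilton, G. Mislin, J. Roitberg, Localization of nilpotent groups and
spaces (1975): the homotopy fibre `W` of the rationalization `S → T` of a simply connected space is
rationally acyclic (a connected simple space whose homotopy groups are torsion groups); maps to
`S` which become null-homotopic in `T` factor through it. -/
def RationalFibre : Prop :=
  ∀ (S T : SS) (η : C(Rl S, Rl T)), SimplyConnectedSpace (Rl S) → IsRat η →
    ∀ (M : SS) (f : C(Rl M, Rl S)), (η.comp f).Nullhomotopic →
      ∃ (W : SS) (a : C(Rl M, Rl W)) (c : C(Rl W, Rl S)), QAcyclic (Rl W) ∧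
        (c.comp a).Homotopic f

/-- A. Borel (1953) and J-P. Serre (1951): the rational cohomology of `B SO(q)` is the polynomial
ring in the Pontryagin classes of degrees `4 i`, `2 i < q`, and, for `q` even, the Euler class, so
the rationalization of `B SO(q)` is a product of Eilenberg-MacLane spaces of rational vector spaces
in these degrees; the composition of a map `f` with the rationalization is null-homotopic if `f` is
zero on rational homology in these degrees. -/
def BorelSerre : Prop :=
  ∀ q : ℕ, 2 ≤ q → ∀ (T : SS) (η : C(Rl (BG (SO q)), Rl T)), IsRat η →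
    ∀ (M : SS) (f : C(Rl M, Rl (BG (SO q)))), RatTrivial f → (η.comp f).Nullhomotopic

/-- the published theorems of algebraic topology which are used for the lifting of rationally
trivial maps -/
structure LiftingFacts : Prop where
  jmo : JMO
  milnor : MilnorDiscrete
  bousfieldKan : BousfieldKan
  bousfield : BousfieldFree
  arithmetic : ArithmeticSquare
  rationalization : Rationalization
  fibre : RationalFibre
  borelSerre : BorelSerre
  simplyConnected : SimplyConnectedBSO

/-! ### Plane fields on closed manifolds -/

/-- The plane field is coorientable: it is the kernel of a continuous `q`-form `ω` (`q` the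
codimension), i.e. the values of `ω` on continuous vector fields are continuous and `ω` is not
zero exactly on the `q`-tuples of tangent vectors which are linearly independent modulo the
plane. -/
def PlaneField.Coorientable {n : ℕ} {M : Mfd n} {p : ℕ} (q : ℕ) (ξ : PlaneField M p) : Prop :=
  ∃ ω : (x : M.X) → AlternatingMap ℝ (Tan M x) ℝ (Fin q),
    (∀ (U : Set M.X) (s : Fin q → (x : M.X) → Tan M x), IsOpen U →
      (∀ i, ContFamily M (fun x => x) (s i) U) →
      ContinuousOn (fun x => ω x (fun i => s i x)) U) ∧
    ∀ (x : M.X) (v : Fin q → Tan M x),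
      ω x v ≠ 0 ↔ LinearIndependent ℝ (fun i => (ξ.plane x).mkQ (v i))

/-- the manifold is closed -/
def Mfd.Closed {n : ℕ} (M : Mfd n) : Prop := CompactSpace M.X ∧ T2Space M.X

/-! ### The universal oriented `q`-plane bundle -/

/-- the matrix of a rotation -/
def SO.mat {q : ℕ} (g : SO q) : Matrix (Fin q) (Fin q) ℝ := g.1

/-- the simplices of `E SO(q)`: tuples of singular simplices of `SO(q)` -/
def ESim (q n : ℕ) : Type := Fin (n + 1) → Sg (SO q) n

/-- the cells of the universal `q`-plane bundle: a simplex of `E SO(q)`, a point of the topological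
simplex and a vector -/
def UCells (q : ℕ) : Type := Σ n : ℕ, Disc (ESim q n) × (Dl n × (Fin q → ℝ))

instance (q : ℕ) : TopologicalSpace (UCells q) := instTopologicalSpaceSigma

/-- the point of a cell -/
def ucell {q : ℕ} (n : ℕ) (g : ESim q n) (t : Dl n) (v : Fin q → ℝ) : UCells q := ⟨n, g, t, v⟩

/-- the identifications in the universal `q`-plane bundle `E SO(q) ×_{SO(q)} ℝ^q`: faces and
degeneracies, and the action of the singular simplices `h` of `SO(q)` -/
inductive UGlue (q : ℕ) : UCells q → UCells q → Prop
  | face {k n : ℕ} (θ : Mono k n) (g : ESim q n) (t : Dl k) (v : Fin q → ℝ) :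
    UGlue q (ucell k (fun i => (g (θ.ap i)).act θ) t v) (ucell n g (dl θ t) v)
  | turn {n : ℕ} (h : Sg (SO q) n) (g g' : ESim q n) (t : Dl n) (v : Fin q → ℝ) :
    (∀ i s, (g' i).ev s = h.ev s * (g i).ev s) →
    UGlue q (ucell n g t v) (ucell n g' t ((h.ev t).mat.mulVec v))

/-- the total space of the universal `q`-plane bundle `E SO(q) ×_{SO(q)} ℝ^q` -/
def UE (q : ℕ) : Type := Quot (UGlue q)

instance (q : ℕ) : TopologicalSpace (UE q) := instTopologicalSpaceQuot

/-- the vector `v` in the fibre over the point of `B SO(q)` given by `g` and `t` -/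
def upt {q n : ℕ} (g : ESim q n) (t : Dl n) (v : Fin q → ℝ) : UE q := Quot.mk _ (ucell n g t v)

/-- the point of `B SO(q)` given by the simplex `g` of `E SO(q)` and the point `t` -/
noncomputable def bpt {q n : ℕ} (g : ESim q n) (t : Dl n) : Rl (BG (SO q)) :=
  Quot.mk _ (cell (BG (SO q)) n (Quot.mk _ ⟨g, Sg.const PUnit.unit n⟩) t)

/-- The map `f : M → B SO(q)` classifies the normal bundle of the plane field `ξ`: there is a
continuous map `Φ` from the tangent bundle of `M` to the universal `q`-plane bundle which maps the
tangent space at `x` linearly onto the fibre over `f x`, with kernel the plane of `ξ` at `x`. -/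
def PlaneField.Classifies {n : ℕ} {M : Mfd n} {p q : ℕ} (ξ : PlaneField M p)
    (f : C(M.X, Rl (BG (SO q)))) : Prop :=
  ∃ Φ : C(TB M, UE q), ∀ x : M.X, ∃ (k : ℕ) (g : ESim q k) (t : Dl k)
    (A : Tan M x →ₗ[ℝ] (Fin q → ℝ)), f x = bpt g t ∧ Function.Surjective A ∧
      LinearMap.ker A = ξ.plane x ∧ ∀ v : Tan M x, Φ (vec M x v) = upt g t (A v)

/-- N. Steenrod, The topology of fibre bundles (1951), J. Milnor, Construction of universal
bundles (1956): oriented vector bundles on closed manifolds are classified by maps to `B SO(q)`. -/
def SteenrodMilnor : Prop :=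
  ∀ (p q : ℕ) (M : Mfd (p + q)), M.Closed → ∀ ξ : PlaneField M p, ξ.Coorientable q →
    ∃ f : C(M.X, Rl (BG (SO q))), ξ.Classifies f

/-- S. Cairns (1935), J. H. C. Whitehead (1940): smooth manifolds are triangulable. -/
def CairnsWhitehead : Prop :=
  ∀ (n : ℕ) (M : Mfd n), M.Closed → ∃ S : SS, Nonempty (M.X ≃ₜ Rl S)

/-- A. Haefliger, Homotopy and integrability, LNM 197 (1971), and W. Thurston, The theory of
foliations of codimension greater than one, Comment. Math. Helv. 49 (1974).  `X` is Haefliger's
classifying space of oriented structures of codimension `q ≥ 2`, `ν` classifies the normal bundle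
and `lin` the structures of flat bundles.  If the classifying map `f` of the normal bundle of the
`p`-plane field `ξ` on the closed manifold `M` lifts to `X` up to homotopy, so that the normal
bundle carries a Haefliger structure, then `ξ` is homotopic to an integrable plane field. -/
def HaefligerThurston : Prop :=
  ∀ q : ℕ, 2 ≤ q → ∃ (X : SS) (b : Between q X), SimplyConnectedSpace (Rl X) ∧
    ∀ (p : ℕ) (M : Mfd (p + q)), M.Closed → ∀ (ξ : PlaneField M p)
      (f : C(M.X, Rl (BG (SO q)))), ξ.Classifies f →
      (∃ g : C(M.X, Rl X), (b.ν.comp g).Homotopic f) →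
      ∃ η : PlaneField M p, η.Integrable ∧ ξ.Homotopic η

end Pool.PF
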