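import Pool.Agent.Work.MP_25ef30_vb.Facts

/-!
# Lifting of rationally trivial maps (MP_25ef30_gt)
-/

set_option autoImplicit false
set_option linter.unusedSectionVars false

open scoped Topology

namespace Pool.PF

/-- for every prime there are a simplicial set `Y` and a map `Y → B G^δ` so that the composition
with `B G^δ → B G` is an isomorphism of homology with coefficients in `ℤ/ℓ` -/
theorem exists_model_free (K : LiftingFacts) {q : ℕ} (hq : 2 ≤ q) {ℓ : ℕ} (hℓ : ℓ.Prime) :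
    ∃ (Y : SS) (y : SMap Y (BG (Disc (SO q)))), ModPIso ℓ (rl ((BGdisc (SO q)).comp y)) := by
  obtain ⟨𝒟, hne, hP, hiso⟩ := K.jmo q hq ℓ hℓ
  refine ⟨Hoc 𝒟.disc, 𝒟.discBG, ?_⟩
  rw [𝒟.square, rl_comp]
  refine ModPIso.comp ?_ hiso
  exact K.bousfieldKan ℓ hℓ 𝒟.R 𝒟.disc 𝒟.top 𝒟.disc_top fun r => K.milnor q hq ℓ hℓ _ (hP r)

/-- a section of `X → B SO(q)` after localization at a prime -/
theorem exists_section (K : LiftingFacts) {q : ℕ} (hq : 2 ≤ q) {ℓ : ℕ} (hℓ : ℓ.Prime) {X : SS}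
    (b : Between q X) {X' Z' : SS} {ηX : C(Rl X, Rl X')} {ηZ : C(Rl (BG (SO q)), Rl Z')}
    (hX : IsLoc ℓ ηX) (hZ : IsLoc ℓ ηZ) :
    ∃ (s : C(Rl (BG (SO q)), Rl X')) (φ : C(Rl X', Rl Z')),
      (φ.comp s).Homotopic ηZ ∧ (φ.comp ηX).Homotopic (ηZ.comp b.ν) := by
  obtain ⟨Y, y, hiso⟩ := exists_model_free K hq hℓ
  have hk : rl ((BGdisc (SO q)).comp y) = b.ν.comp (b.lin.comp (rl y)) := by
    rw [rl_comp, ← b.comp]
    rfl
  obtain ⟨s, hs⟩ := hX.isLocal.ext Y (BG (SO q)) _ hiso (ηX.comp (b.lin.comp (rl y)))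
  obtain ⟨φ, hφ⟩ := hZ.isLocal.ext X X' ηX hX.iso (ηZ.comp b.ν)
  refine ⟨s, φ, ?_, hφ⟩
  refine hZ.isLocal.uniq Y (BG (SO q)) _ hiso _ _ ?_
  have h1 : (φ.comp (s.comp (rl ((BGdisc (SO q)).comp y)))).Homotopic
      (φ.comp (ηX.comp (b.lin.comp (rl y)))) :=
    ContinuousMap.Homotopic.comp (ContinuousMap.Homotopic.refl φ) hs
  have h2 : ((φ.comp ηX).comp (b.lin.comp (rl y))).Homotopic
      ((ηZ.comp b.ν).comp (b.lin.comp (rl y))) :=
    ContinuousMap.Homotopic.comp hφ (ContinuousMap.Homotopic.refl _)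
  have h3 : (ηZ.comp b.ν).comp (b.lin.comp (rl y)) =
      ηZ.comp (rl ((BGdisc (SO q)).comp y)) := by
    rw [hk]
    rfl
  rw [h3] at h2
  exact h1.trans h2

/-- Let `B SO(q)^δ → X → B SO(q)` be a factorization of the canonical map with `X` simply
connected.  Every map `f : M → B SO(q)` with vanishing rational Pontryagin classes and Euler class
lifts to `X` up to homotopy. -/
theorem rational_lifting (K : LiftingFacts) {q : ℕ} (hq : 2 ≤ q) (X : SS) (b : Between q X)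
    (hX : SimplyConnectedSpace (Rl X)) (M : SS) (f : C(Rl M, Rl (BG (SO q))))
    (hf : RatTrivial f) : ∃ g : C(Rl M, Rl X), (b.ν.comp g).Homotopic f := by
  have hZ := K.simplyConnected q hq
  obtain ⟨T, ζ, hζ⟩ := K.rationalization _ hZ
  obtain ⟨W, a, c, hW, hac⟩ := K.fibre _ T ζ hZ hζ M f (K.borelSerre q hq T ζ hζ M f hf)
  have hXl : ∀ ℓ : ℕ, ∃ (X' : SS) (η : C(Rl X, Rl X')), ℓ.Prime → IsLoc ℓ η := by
    intro ℓ
    by_cases hℓ : ℓ.Prime
    · obtain ⟨X', η, h⟩ := K.bousfield ℓ hℓ X hX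
      exact ⟨X', η, fun _ => h⟩
    · exact ⟨X, ContinuousMap.id _, fun h => (hℓ h).elim⟩
  have hZl : ∀ ℓ : ℕ, ∃ (Z' : SS) (η : C(Rl (BG (SO q)), Rl Z')), ℓ.Prime → IsLoc ℓ η := by
    intro ℓ
    by_cases hℓ : ℓ.Prime
    · obtain ⟨Z', η, h⟩ := K.bousfield ℓ hℓ _ hZ
      exact ⟨Z', η, fun _ => h⟩
    · exact ⟨BG (SO q), ContinuousMap.id _, fun h => (hℓ h).elim⟩
  choose X' ηX hηX using hXl
  choose Z' ηZ hηZ using hZl
  have hu : ∀ ℓ : ℕ, ∃ u : C(Rl W, Rl (X' ℓ)), ℓ.Prime →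
      ∃ (s : C(Rl (BG (SO q)), Rl (X' ℓ))) (φ : C(Rl (X' ℓ), Rl (Z' ℓ))), u = s.comp c ∧
        (φ.comp s).Homotopic (ηZ ℓ) ∧ (φ.comp (ηX ℓ)).Homotopic ((ηZ ℓ).comp b.ν) := by
    intro ℓ
    by_cases hℓ : ℓ.Prime
    · obtain ⟨s, φ, h1, h2⟩ := exists_section K hq hℓ b (hηX ℓ hℓ) (hηZ ℓ hℓ)
      exact ⟨s.comp c, fun _ => ⟨s, φ, rfl, h1, h2⟩⟩
    · exact ⟨ContinuousMap.const _ (ηX ℓ (b.lin (vtx (BGpt (SO q))))), fun h => (hℓ h).elim⟩
  choose u hu using hu
  obtain ⟨v, hv⟩ := (K.arithmetic X hX X' ηX hηX W hW).1 u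
  have hvc : (b.ν.comp v).Homotopic c := by
    refine (K.arithmetic _ hZ Z' ηZ hηZ W hW).2 _ _ fun ℓ hℓ => ?_
    obtain ⟨s, φ, hus, h1, h2⟩ := hu ℓ hℓ
    have h3 : ((φ.comp (ηX ℓ)).comp v).Homotopic (((ηZ ℓ).comp b.ν).comp v) :=
      ContinuousMap.Homotopic.comp h2 (ContinuousMap.Homotopic.refl v)
    have h4 : (φ.comp ((ηX ℓ).comp v)).Homotopic (φ.comp (s.comp c)) :=
      ContinuousMap.Homotopic.comp (ContinuousMap.Homotopic.refl φ) (by rw [← hus]; exact hv ℓ hℓ)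
    have h5 : ((φ.comp s).comp c).Homotopic ((ηZ ℓ).comp c) :=
      ContinuousMap.Homotopic.comp h1 (ContinuousMap.Homotopic.refl c)
    exact h3.symm.trans (h4.trans h5)
  refine ⟨v.comp a, ?_⟩
  have h6 : ((b.ν.comp v).comp a).Homotopic (c.comp a) :=
    ContinuousMap.Homotopic.comp hvc (ContinuousMap.Homotopic.refl a)
  exact h6.trans hac

/-- the published theorems on manifolds, bundles and foliations which are used -/
structure ManifoldFacts : Prop where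
  triangulable : CairnsWhitehead
  foliations : HaefligerThurston
  classification : SteenrodMilnor

theorem HQMapZero.precomp {k : ℕ} {X Y Z : Type} [TopologicalSpace X] [TopologicalSpace Y]
    [TopologicalSpace Z] {f : C(Y, Z)} (h : HQMapZero k f) (a : C(X, Y)) :
    HQMapZero k (f.comp a) := by
  unfold HQMapZero at *
  have e : TopCat.ofHom (f.comp a) =
    CategoryTheory.CategoryStruct.comp (TopCat.ofHom a) (TopCat.ofHom f) := rfl
  rw [e, CategoryTheory.Functor.map_comp, h, CategoryTheory.Limits.comp_zero]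

theorem HQZero.map {k : ℕ} {X Y : Type} [TopologicalSpace X] [TopologicalSpace Y]
    (h : HQZero k X) (f : C(X, Y)) : HQMapZero k f :=
  h.eq_of_src _ _

/-- Plane fields whose normal bundle has vanishing rational Pontryagin classes and Euler class. -/
theorem rationally_trivial (K : LiftingFacts) (L : ManifoldFacts) (p q : ℕ) (hq : 2 ≤ q)
    (M : Mfd (p + q)) (hM : M.Closed) (ξ : PlaneField M p) (f : C(M.X, Rl (BG (SO q))))
    (hf : ξ.Classifies f) (hn : RatTrivial f) :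
    ∃ η : PlaneField M p, η.Integrable ∧ ξ.Homotopic η := by
  obtain ⟨X, b, hX, hint⟩ := L.foliations q hq
  refine hint p M hM ξ f hf ?_
  obtain ⟨S, ⟨e⟩⟩ := L.triangulable _ M hM
  let a : C(Rl S, M.X) := ⟨e.symm, e.symm.continuous⟩
  let a' : C(M.X, Rl S) := ⟨e, e.continuous⟩
  have hn' : RatTrivial (f.comp a) :=
    ⟨fun i h1 h2 => (hn.1 i h1 h2).precomp a, fun h => (hn.2 h).precomp a⟩
  obtain ⟨g, hg⟩ := rational_lifting K hq X b hX S (f.comp a) hn'
  refine ⟨g.comp a', ?_⟩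
  have h1 : ((b.ν.comp g).comp a').Homotopic ((f.comp a).comp a') :=
    ContinuousMap.Homotopic.comp hg (ContinuousMap.Homotopic.refl a')
  have h2 : (f.comp a).comp a' = f := by
    ext x
    exact congrArg f (e.symm_apply_apply x)
  rw [h2] at h1
  exact h1

/-- coorientable plane fields on closed manifolds whose rational homology vanishes in the degrees
`4 i`, `2 i < q`, and, for `q` even, `q` -/
theorem vanishing_homology (K : LiftingFacts) (L : ManifoldFacts) (p q : ℕ) (hq : 2 ≤ q)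
    (M : Mfd (p + q)) (hM : M.Closed) (h4 : ∀ i : ℕ, 1 ≤ i → 2 * i < q → HQZero (4 * i) M.X)
    (he : Even q → HQZero q M.X) (ξ : PlaneField M p) (hξ : ξ.Coorientable q) :
    ∃ η : PlaneField M p, η.Integrable ∧ ξ.Homotopic η := by
  obtain ⟨f, hf⟩ := L.classification p q M hM ξ hξ
  exact rationally_trivial K L p q hq M hM ξ f hf
    ⟨fun i h1 h2 => (h4 i h1 h2).map f, fun h => (he h).map f⟩

end Pool.PF
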